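import Pool.Agent.Work.MP_72041b_co.LV.All

/-!
# MP_72041b_co: large total volume

`f k a b` is asymptotic to `L k * b ^ (1 / k)` as `b / a ^ k → ∞`, and the constants satisfy
`√2 * (2 / (k + 2)) ^ (1 / k) ≤ L k / √k ≤ 4` and `L 2 ≤ 2`.
-/

namespace Pool.Agent.Results.MP_72041b_co.LargeVolume

open Pool.Agent.Potatoes

theorem result : ∃ L : ℕ → ℝ, L 2 ≤ 2 ∧ ∀ k : ℕ, 2 ≤ k →
    (∀ ε : ℝ, 0 < ε → ∃ B : ℝ, 0 < B ∧ ∀ a b : ℝ, 0 < a → B * a ^ k ≤ b →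
      |f k a b - L k * b ^ (1 / (k : ℝ))| ≤ ε * b ^ (1 / (k : ℝ))) ∧
    (∀ a b : ℝ, 0 < a → a ^ k ≤ b → L k * (b - a ^ k) ^ (1 / (k : ℝ)) ≤ f k a b) ∧
    √k * (√2 * (2 / ((k : ℝ) + 2)) ^ (1 / (k : ℝ))) ≤ L k ∧ L k ≤ 4 * √k :=
  LV.all_Main

end Pool.Agent.Results.MP_72041b_co.LargeVolume
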