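import Pool.Agent.Work.MP_72041b_co.PL.All

/-!
# MP_72041b_co: large total volume in the plane

`f 2 a b` is asymptotic to `L * √b` as `b / a ^ 2 → ∞`, with `4 * √3 / π ≤ L ^ 2 ≤ 4 / √3`, that is,
`1.4850 ≤ L ≤ 1.5197`.
-/

namespace Pool.Agent.Results.MP_72041b_co.PlaneConstant

open Pool.Agent.Potatoes

theorem result : ∃ L : ℝ, 0 < L ∧ 4 * √3 / Real.pi ≤ L ^ 2 ∧ L ^ 2 ≤ 4 / √3 ∧
    (∀ ε : ℝ, 0 < ε → ∃ B : ℝ, 0 < B ∧ ∀ a b : ℝ, 0 < a → B * a ^ 2 ≤ b →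
      |f 2 a b - L * √b| ≤ ε * √b) ∧
    ∀ a b : ℝ, 0 < a → a ^ 2 ≤ b → L * √(b - a ^ 2) ≤ f 2 a b :=
  PL.all_MainP

end Pool.Agent.Results.MP_72041b_co.PlaneConstant
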