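import Pool.Agent.Work.MP_72041b_co.TT.All

/-!
# MP_72041b_co: small total volume in the plane

Three terms of the expansion of `f 2 a b` for small `b / a ^ 2`, and an upper bound in closed form.
-/

namespace Pool.Agent.Results.MP_72041b_co.PlaneThreeTerms

open Pool.Agent.Potatoes

theorem result : ∃ β C : ℝ, 0 < β ∧ 0 < C ∧ ∀ a b : ℝ, 0 < a → 0 < b → b ≤ β * a ^ 2 →
    |f 2 a b - (a + 2 * b / a - 6 * b ^ 2 / a ^ 3)| ≤ C * b ^ 3 / a ^ 5 ∧
    f 2 a b ≤ √((a ^ 2 + 4 * b + √(a ^ 4 + 8 * a ^ 2 * b - 16 * b ^ 2)) / 2) :=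
  TT.all_MainTT

end Pool.Agent.Results.MP_72041b_co.PlaneThreeTerms
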