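import Pool.Agent.Work.MP_72041b_co.AllA

/-!
# MP_72041b_co: the order of magnitude of `f_k(a,b)`

For every `k ≥ 2` there are constants `0 < c, C` such that, for all `a, b > 0`, the number
`f k a b - √(k-1) a` lies between `c * min (b / a^(k-1)) (b^(1/k))` and
`C * min (b / a^(k-1)) (b^(1/k))`.
-/

namespace Pool.Agent.Results.MP_72041b_co.SackOrder

open Pool.Agent.Potatoes

theorem result : ∀ k : ℕ, 2 ≤ k → ∃ c C : ℝ, 0 < c ∧ 0 < C ∧ ∀ a b : ℝ, 0 < a → 0 < b →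
    √((k : ℝ) - 1) * a + c * min (b / a ^ (k - 1)) (b ^ (1 / (k : ℝ))) ≤ f k a b ∧
    f k a b ≤ √((k : ℝ) - 1) * a + C * min (b / a ^ (k - 1)) (b ^ (1 / (k : ℝ))) :=
  mainA_all

end Pool.Agent.Results.MP_72041b_co.SackOrder
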